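import Mathlib

/-!
# Two Diophantine triples with a common pair which contains the largest element

Let `M` be larger than `N`, `a`, `b`, let `M N + 1`, `M a + 1`, `N a + 1`, `M b + 1`, `N b + 1` be
squares and `a b + 1` not a square.  Write `s = √(M N + 1)` and let `e` be the fourth element of the
regular quadruple below `{M, N, a}`, and `e'` the one for `b`.  Then `a + e` and `b + e'` differ by
a nonzero multiple of `2 s`.
-/

namespace Pool.Agent.H99.Pyr

/-- The data attached to a Diophantine triple `{M, N, a}` with largest element `M`. -/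
theorem triple_data {M N a s p q : ℤ} (hN : 0 < N) (ha : 0 < a) (hNM : N < M) (haM : a < M)
    (hs0 : 0 ≤ s) (hp0 : 0 ≤ p) (hq0 : 0 ≤ q) (hs : s ^ 2 = M * N + 1) (hp : p ^ 2 = M * a + 1)
    (hq : q ^ 2 = N * a + 1) :
    ∃ e X : ℤ, 0 ≤ e ∧ 0 < X ∧ X ^ 2 = a * e + 1 ∧ M + N - a - e = 2 * s * X ∧
      (e = 0 → M = N + a + 2 * q) ∧ (0 < e → 4 * N * a * e < M) := by
  have hM : 2 ≤ M := by omega
  have hsN : N < s := by
    nlinarith [mul_pos hN hN]
  have hX0 : 0 < p * q - a * s := by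
    have h1 : (a * s) ^ 2 < (p * q) ^ 2 := by
      have h2 : (p * q) ^ 2 = (M * a + 1) * (N * a + 1) := by rw [mul_pow, hp, hq]
      have h3 : (a * s) ^ 2 = a ^ 2 * (M * N + 1) := by rw [mul_pow, hs]
      rw [h2, h3]
      nlinarith [mul_pos ha hN, mul_pos ha (show 0 < M - a by omega)]
    have h4 : a * s < p * q := lt_of_pow_lt_pow_left₀ 2 (mul_nonneg hp0 hq0) h1
    omega
  set X := p * q - a * s with hXdef
  set e := M + N - a - 2 * s * X with hedef
  have hX : X ^ 2 = a * e + 1 := by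
    have : X ^ 2 - (a * e + 1) = (p * q) ^ 2 - a ^ 2 * s ^ 2 + a * (a - M - N) - 1
        + (2 * a ^ 2 * s ^ 2 - 2 * a * s * (p * q)) + 2 * a * s * X := by
      rw [hedef, hXdef]; ring
    have h2 : (p * q) ^ 2 = (M * a + 1) * (N * a + 1) := by rw [mul_pow, hp, hq]
    have h5 : 2 * a ^ 2 * s ^ 2 - 2 * a * s * (p * q) + 2 * a * s * X = 0 := by
      rw [hXdef]; ring
    have h6 : (p * q) ^ 2 - a ^ 2 * s ^ 2 + a * (a - M - N) - 1 = 0 := by
      rw [h2, hs]; ring
    linarith
  have hMe : M * e + 1 = (M * q - s * p) ^ 2 := by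
    have h1 : (M * q - s * p) ^ 2 = M ^ 2 * q ^ 2 + s ^ 2 * p ^ 2 - 2 * M * s * (p * q) := by ring
    have h2 : M * e + 1 = M * (M + N - a) - 2 * M * s * (p * q) + 2 * M * a * s ^ 2 + 1 := by
      rw [hedef, hXdef]; ring
    rw [h1, h2, hs, hp, hq]; ring
  have hNe : N * e + 1 = (N * p - s * q) ^ 2 := by
    have h1 : (N * p - s * q) ^ 2 = N ^ 2 * p ^ 2 + s ^ 2 * q ^ 2 - 2 * N * s * (p * q) := by ring
    have h2 : N * e + 1 = N * (M + N - a) - 2 * N * s * (p * q) + 2 * N * a * s ^ 2 + 1 := by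
      rw [hedef, hXdef]; ring
    rw [h1, h2, hs, hp, hq]; ring
  have he0 : 0 ≤ e := by
    by_contra hneg
    have h1 : e ≤ -1 := by omega
    nlinarith [sq_nonneg (M * q - s * p)]
  have heM : e < M := by
    have h1 : s ≤ s * X := by nlinarith
    have : 2 * s * X = 2 * (s * X) := by ring
    omega
  refine ⟨e, X, he0, hX0, hX, by rw [hedef]; ring, ?_, ?_⟩
  · intro hz
    have hX1 : X = 1 := by
      rw [hz] at hX
      nlinarith
    have h1 : a = M + N - 2 * s := by
      have := hedef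
      rw [hz, hX1] at this
      linarith
    have h2 : q ^ 2 = (s - N) ^ 2 := by
      rw [hq, h1]
      have : (s - N) ^ 2 = s ^ 2 - 2 * s * N + N ^ 2 := by ring
      rw [this, hs]; ring
    have h3 : q = s - N := by
      have := (sq_eq_sq₀ hq0 (by omega : 0 ≤ s - N)).1 h2
      exact this
    rw [h3]; linarith
  · intro hpos
    have hsq1 : (M + N - a - e) ^ 2 = 4 * (M * N + 1) * (a * e + 1) := by
      have : M + N - a - e = 2 * s * X := by rw [hedef]; ring
      rw [this, ← hX, ← hs]; ring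
    have hsq2 : (M + a - N - e) ^ 2 = 4 * (M * a + 1) * (N * e + 1) := by
      have h : (M + a - N - e) ^ 2 - 4 * (M * a + 1) * (N * e + 1) =
        (M + N - a - e) ^ 2 - 4 * (M * N + 1) * (a * e + 1) := by ring
      linarith
    have hsq3 : (M + e - N - a) ^ 2 = 4 * (M * e + 1) * (N * a + 1) := by
      have h : (M + e - N - a) ^ 2 - 4 * (M * e + 1) * (N * a + 1) =
        (M + N - a - e) ^ 2 - 4 * (M * N + 1) * (a * e + 1) := by ring
      linarith
    have hMpos : 0 < M := by omega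
    have key : ∀ x y z : ℤ, 0 < x → 0 < y → 0 < z → y < M → z < M → x ≤ y →
        (M + x - y - z) ^ 2 = 4 * (M * x + 1) * (y * z + 1) → 4 * x * y * z < M := by
      intro x y z hx hy hz hyM hzM hxy h
      have h1 : M + x - y - z < M := by omega
      have h2 : -M < M + x - y - z := by omega
      have h3 : (M + x - y - z) ^ 2 < M ^ 2 := sq_lt_sq' h2 h1
      have h4 : M * (4 * x * y * z) < 4 * (M * x + 1) * (y * z + 1) := by
        have e1 : 4 * (M * x + 1) * (y * z + 1) =
          M * (4 * x * y * z) + 4 * (M * x) + 4 * (y * z) + 4 := by ring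
        have e2 : 0 < M * x := mul_pos hMpos hx
        have e3 : 0 < y * z := mul_pos hy hz
        omega
      have h5 : M * (4 * x * y * z) < M * M := by
        rw [h] at h3
        have e4 : M ^ 2 = M * M := sq M
        omega
      exact lt_of_mul_lt_mul_left h5 hMpos.le
    rcases le_total N a with h | h
    · exact key N a e hN ha hpos haM heM h hsq1
    · have := key a N e ha hN hpos hNM heM h hsq2
      linarith [mul_comm (4 * a * N) e, mul_comm (4 * N * a) e, mul_comm a N,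
        show 4 * a * N * e = 4 * N * a * e by ring]

/-- The gap principle for two triples `{M, N, a}` and `{M, N, b}`. -/
theorem diamond {M N a b : ℤ} (hN : 0 < N) (ha : 0 < a) (hb : 0 < b) (hNM : N < M) (haM : a < M)
    (hbM : b < M) (hab : a ≠ b) (h1 : IsSquare (M * N + 1)) (h2 : IsSquare (M * a + 1))
    (h3 : IsSquare (N * a + 1)) (h4 : IsSquare (M * b + 1)) (h5 : IsSquare (N * b + 1))
    (h6 : ¬ IsSquare (a * b + 1)) :
    ∃ s : ℤ, 0 < s ∧ s ^ 2 = M * N + 1 ∧
      ((∃ e : ℤ, 2 * s + b ≤ a + e ∧ 0 ≤ e ∧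
        (e = 0 → ∃ q : ℤ, 0 ≤ q ∧ q ^ 2 = N * a + 1 ∧ M = N + a + 2 * q) ∧
        (0 < e → 4 * N * a * e < M)) ∨
      (∃ e : ℤ, 2 * s + a ≤ b + e ∧ 0 ≤ e ∧
        (e = 0 → ∃ q : ℤ, 0 ≤ q ∧ q ^ 2 = N * b + 1 ∧ M = N + b + 2 * q) ∧
        (0 < e → 4 * N * b * e < M))) := by
  have root : ∀ x : ℤ, IsSquare x → ∃ r : ℤ, 0 ≤ r ∧ r ^ 2 = x := by
    rintro x ⟨r, rfl⟩
    exact ⟨|r|, abs_nonneg r, by rw [sq_abs]; ring⟩
  obtain ⟨s, hs0, hs⟩ := root _ h1
  obtain ⟨p, hp0, hp⟩ := root _ h2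
  obtain ⟨q, hq0, hq⟩ := root _ h3
  obtain ⟨p', hp0', hp'⟩ := root _ h4
  obtain ⟨q', hq0', hq'⟩ := root _ h5
  obtain ⟨e, X, he0, hX0, hX, hlin, hreg, hbig⟩ :=
    triple_data hN ha hNM haM hs0 hp0 hq0 hs hp hq
  obtain ⟨e', Y, he0', hY0, hY, hlin', hreg', hbig'⟩ :=
    triple_data hN hb hNM hbM hs0 hp0' hq0' hs hp' hq'
  have hspos : 0 < s := by
    rcases hs0.lt_or_eq with h | h
    · exact h
    · exfalso
      rw [← h] at hs
      nlinarith [mul_pos hN (show 0 < M by omega)]
  have hne : X ≠ Y := by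
    intro hXY
    have hsum : a + e = b + e' := by
      rw [hXY] at hlin
      linarith
    have hprod : a * e = b * e' := by
      rw [hXY] at hX
      linarith
    have hz : (a - b) * (a - e') = 0 := by
      have : (a - b) * (a - e') = a ^ 2 - a * (b + e') + b * e' := by ring
      rw [this, ← hsum, ← hprod]; ring
    rcases mul_eq_zero.1 hz with h | h
    · exact hab (by omega)
    · apply h6
      have h7 : a = e' := by omega
      rw [h7, mul_comm, ← hY]
      exact ⟨Y, by ring⟩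
  refine ⟨s, hspos, hs, ?_⟩
  rcases lt_or_gt_of_ne hne with h | h
  · left
    refine ⟨e, ?_, he0, fun hz => ⟨q, hq0, hq, hreg hz⟩, hbig⟩
    have h8 : a + e - (b + e') = 2 * s * (Y - X) := by linarith [hlin, hlin', mul_sub (2 * s) Y X]
    have h9 : 2 * s ≤ 2 * s * (Y - X) := by nlinarith
    linarith
  · right
    refine ⟨e', ?_, he0', fun hz => ⟨q', hq0', hq', hreg' hz⟩, hbig'⟩
    have h8 : b + e' - (a + e) = 2 * s * (X - Y) := by linarith [hlin, hlin', mul_sub (2 * s) X Y]
    have h9 : 2 * s ≤ 2 * s * (X - Y) := by nlinarith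
    linarith

/-- If `M` is large then `N ^ 3` is small or the triple is regular. -/
theorem large_or_regular {M N a e s : ℤ} (hN : 0 < N) (ha : 0 < a) (hM : 0 < M) (hs0 : 0 < s)
    (hs : s ^ 2 = M * N + 1) (h2 : 2 * s < a + e) (he : 0 < e) (h4 : 4 * N * a * e < M) :
    16 * N ^ 3 < M := by
  have h1 : 4 * N * s < M := by
    rcases le_total a e with h | h
    · have : s < e := by omega
      nlinarith [mul_pos hN ha, mul_pos hN he, mul_pos hN hs0]
    · have : s < a := by omega
      nlinarith [mul_pos hN ha, mul_pos hN he, mul_pos hN hs0]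
  have h5 : (4 * N * s) ^ 2 < M ^ 2 := by
    have : 0 < 4 * N * s := by positivity
    nlinarith
  have h6 : (4 * N * s) ^ 2 = 16 * N ^ 2 * (M * N + 1) := by
    rw [mul_pow, hs]; ring
  have h7 : M * (16 * N ^ 3) < M * M := by
    rw [h6] at h5
    nlinarith [mul_pos hN hN]
  exact lt_of_mul_lt_mul_left h7 hM.le

/-- The bound when the tips of the diamond are small compared with `s`. -/
theorem small_tip {M N a e s : ℤ} (hN : 0 < N) (ha : 0 < a) (hM : 0 < M) (hs0 : 0 < s)
    (hs : s ^ 2 = M * N + 1) (h2 : 2 * s < a + e) (ha2 : 2 * a ≤ s) (h4 : 4 * N * a * e < M) :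
    36 * a ^ 2 * N ^ 3 < M := by
  have h1 : 3 * s < 2 * e := by omega
  have h3 : 6 * N * a * s < M := by
    have : 0 < N * a := mul_pos hN ha
    nlinarith
  have h5 : (6 * N * a * s) ^ 2 < M ^ 2 := by
    have : 0 < 6 * N * a * s := by positivity
    nlinarith
  have h6 : (6 * N * a * s) ^ 2 = 36 * N ^ 2 * a ^ 2 * (M * N + 1) := by
    rw [mul_pow, hs]; ring
  have h7 : M * (36 * a ^ 2 * N ^ 3) < M * M := by
    rw [h6] at h5
    have : 0 < N ^ 2 * a ^ 2 := by positivity
    nlinarith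
  exact lt_of_mul_lt_mul_left h7 hM.le

end Pool.Agent.H99.Pyr
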