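import Mathlib

/-!
# Three consecutive regular triangles
-/

namespace Pool.Agent.H99.Pyr

/-- The core computation: `a = h + b + 2 u`, `c = h + b - 2 u`, `d = 4 h + b - 4 u`. -/
theorem three_core {h a b d u : ℤ} (ha : 0 < a) (hd : 0 < d) (hu : u ^ 2 = h * b + 1)
    (h1 : a = h + b + 2 * u) (h2 : d = 4 * h + b - 4 * u) : ¬ IsSquare (d * a + 1) := by
  rintro ⟨z, hz⟩
  have key : (b - 2 * h - u) ^ 2 = z ^ 2 + 8 := by
    have : z ^ 2 = d * a + 1 := by rw [hz]; ring
    rw [this, h1, h2]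
    have e : (b - 2 * h - u) ^ 2 - ((4 * h + b - 4 * u) * (h + b + 2 * u) + 1 + 8) =
      9 * (u ^ 2 - (h * b + 1)) := by ring
    rw [hu] at e
    linarith
  set w := |b - 2 * h - u| with hw
  set y := |z| with hy
  have hwy : w ^ 2 = y ^ 2 + 8 := by rw [hw, hy, sq_abs, sq_abs, key]
  have hw0 : 0 ≤ w := abs_nonneg _
  have hy0 : 0 ≤ y := abs_nonneg _
  have hy2 : 2 ≤ y := by
    have h3 : y ^ 2 = d * a + 1 := by rw [hy, sq_abs, hz]; ring
    have h4 : 1 ≤ d * a := by
      have := mul_pos hd ha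
      omega
    by_contra hlt
    have h5 : y ≤ 1 := by omega
    nlinarith
  have h6 : y < w := by nlinarith
  rcases (show y + 1 ≤ w by omega).eq_or_lt with h7 | h7
  · have h8 : 2 * y + 1 = 8 := by
      rw [← h7] at hwy
      nlinarith
    omega
  · have h8 : y + 2 ≤ w := by omega
    nlinarith

/-- Three consecutive regular triangles exclude the fourth edge of the rim. -/
theorem three_regular {h a b c d : ℤ} (ha : 0 < a) (hd : 0 < d) (hac : a ≠ c) (hbd : b ≠ d)
    (hb : IsSquare (h * b + 1)) (h1 : (h + b - a) ^ 2 = 4 * (h * b + 1))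
    (h2 : (h + b - c) ^ 2 = 4 * (h * b + 1)) (h3 : (h + c - d) ^ 2 = 4 * (h * c + 1)) :
    ¬ IsSquare (d * a + 1) := by
  obtain ⟨r, hr⟩ := hb
  -- choose the sign of the root
  obtain ⟨u, hu, hau⟩ : ∃ u : ℤ, u ^ 2 = h * b + 1 ∧ a = h + b + 2 * u := by
    have h4 : (h + b - a) ^ 2 = (2 * r) ^ 2 := by rw [h1, hr]; ring
    rcases sq_eq_sq_iff_eq_or_eq_neg.1 h4 with h5 | h5
    · exact ⟨-r, by rw [hr]; ring, by linarith⟩
    · exact ⟨r, by rw [hr]; ring, by linarith⟩
  have hcu : c = h + b - 2 * u := by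
    have h4 : (h + b - c) ^ 2 = (2 * u) ^ 2 := by rw [h2, ← hu]; ring
    rcases sq_eq_sq_iff_eq_or_eq_neg.1 h4 with h5 | h5
    · linarith
    · exact absurd (by linarith) hac
  have hdu : d = 4 * h + b - 4 * u := by
    have h4 : (h + c - d) ^ 2 = (2 * (h - u)) ^ 2 := by
      rw [h3, hcu]
      have : (2 * (h - u)) ^ 2 = 4 * h ^ 2 - 8 * h * u + 4 * u ^ 2 := by ring
      rw [this, hu]; ring
    rcases sq_eq_sq_iff_eq_or_eq_neg.1 h4 with h5 | h5
    · exact absurd (by linarith) hbd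
    · linarith
  exact three_core ha hd hu hau hdu

end Pool.Agent.H99.Pyr
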