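import Mathlib
import Pool.Agent.H99.Pyr.Diamond

/-!
# Square roots of one modulo the largest element
-/

namespace Pool.Agent.H99.Pyr

/-- The number of square roots of `1` modulo `M`. -/
noncomputable def rootCount (M : ℕ) : ℕ := Nat.card {x : ZMod M // x ^ 2 = 1}

theorem rootCount_eq_two_pow (M : ℕ) [NeZero M] : ∃ n, rootCount M = 2 ^ n := by
  let K : Subgroup (ZMod M)ˣ := (powMonoidHom 2 : (ZMod M)ˣ →* (ZMod M)ˣ).ker
  have hmem : ∀ u : (ZMod M)ˣ, u ∈ K ↔ u ^ 2 = 1 := fun u => by
    rw [MonoidHom.mem_ker]; rfl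
  have hK : IsPGroup 2 K := by
    intro g
    refine ⟨1, ?_⟩
    have := (hmem g.1).1 g.2
    ext
    rw [pow_one]
    exact congrArg Units.val this
  have hcard : Nat.card {x : ZMod M // x ^ 2 = 1} = Nat.card K := by
    refine Nat.card_congr
      { toFun := fun x => ⟨⟨x.1, x.1, by rw [← sq]; exact x.2, by rw [← sq]; exact x.2⟩, ?_⟩
        invFun := fun u => ⟨(u.1 : ZMod M), ?_⟩
        left_inv := ?_
        right_inv := ?_ }
    · rw [hmem]
      ext
      exact x.2
    · have := (hmem u.1).1 u.2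
      have h2 := congrArg Units.val this
      exact h2
    · intro x; rfl
    · intro u
      ext
      rfl
  have : Finite K := inferInstance
  obtain ⟨n, hn⟩ := IsPGroup.iff_card.1 hK
  exact ⟨n, by rw [rootCount, hcard, hn]⟩

theorem le_rootCount {M : ℕ} [NeZero M] (S : Finset ℕ)
    (hS : ∀ t ∈ S, t < M ∧ ∃ x, t ^ 2 = M * x + 1) : S.card ≤ rootCount M := by
  classical
  have : Finite {x : ZMod M // x ^ 2 = 1} := inferInstance
  let f : S → {x : ZMod M // x ^ 2 = 1} := fun t => ⟨((t : ℕ) : ZMod M), by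
    obtain ⟨x, hx⟩ := (hS t.1 t.2).2
    have : (((t : ℕ) ^ 2 : ℕ) : ZMod M) = ((M * x + 1 : ℕ) : ZMod M) := by rw [hx]
    push_cast at this
    rw [this]
    simp⟩
  have hf : Function.Injective f := by
    intro t t' htt
    have h1 : (((t : ℕ)) : ZMod M) = ((t' : ℕ) : ZMod M) := congrArg Subtype.val htt
    rw [ZMod.natCast_eq_natCast_iff'] at h1
    rw [Nat.mod_eq_of_lt (hS t.1 t.2).1, Nat.mod_eq_of_lt (hS t'.1 t'.2).1] at h1
    exact Subtype.ext h1
  have h2 := Nat.card_le_card_of_injective f hf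
  rwa [Nat.card_eq_fintype_card, Fintype.card_coe] at h2

/-- small neighbours of `M` -/
theorem small_neighbours {M : ℕ} (hM : 2 < M) (T : Finset ℕ)
    (hT : ∀ x ∈ T, 0 < x ∧ 4 * x < M ∧ IsSquare (M * x + 1)) :
    2 * T.card + 2 ≤ rootCount M := by
  classical
  have : NeZero M := ⟨by omega⟩
  let t : ℕ → ℕ := fun x => Nat.sqrt (M * x + 1)
  have ht : ∀ x ∈ T, t x ^ 2 = M * x + 1 := by
    intro x hx
    obtain ⟨r, hr⟩ := (hT x hx).2.2
    show Nat.sqrt (M * x + 1) ^ 2 = M * x + 1
    rw [hr, Nat.sqrt_eq]; ring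
  have hlow : ∀ x ∈ T, 1 < t x := by
    intro x hx
    have h1 := ht x hx
    have h2 := (hT x hx).1
    have h3 : 0 < M * x := Nat.mul_pos (by omega) h2
    by_contra h4
    have h5 : t x ≤ 1 := by omega
    have : t x ^ 2 ≤ 1 ^ 2 := Nat.pow_le_pow_left h5 2
    omega
  have hhigh : ∀ x ∈ T, 2 * t x < M := by
    intro x hx
    have h1 := ht x hx
    have h2 := (hT x hx).2.1
    by_contra h4
    have h5 : M ≤ 2 * t x := by omega
    have h6 : M ^ 2 ≤ (2 * t x) ^ 2 := Nat.pow_le_pow_left h5 2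
    have h7 : (2 * t x) ^ 2 = 4 * (M * x + 1) := by rw [mul_pow, h1]; ring
    have h8 : M * (4 * x + 1) ≤ M * M := Nat.mul_le_mul_left M (by omega)
    have h9 : M * (4 * x + 1) = 4 * (M * x) + M := by ring
    have h10 : M ^ 2 = M * M := sq M
    -- `M * M ≤ 4 * M * x + 4` and `4 * M * x + M ≤ M * M`
    have h11 : M ≤ 4 := by omega
    have h12 := (hT x hx).1
    omega
  have hinj : Set.InjOn t T := by
    intro x hx y hy hxy
    have h1 := ht x hx
    have h2 := ht y hy
    rw [hxy, h2] at h1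
    have h3 : M * y = M * x := by omega
    exact (Nat.eq_of_mul_eq_mul_left (by omega) h3).symm
  let A := T.image t
  let B := T.image (fun x => M - t x)
  have hA : A.card = T.card := Finset.card_image_of_injOn hinj
  have hB : B.card = T.card := by
    apply Finset.card_image_of_injOn
    intro x hx y hy hxy
    apply hinj hx hy
    have h1 := hhigh x hx
    have h2 := hhigh y hy
    simp only at hxy
    omega
  have hAmem : ∀ z ∈ A, 1 < z ∧ 2 * z < M := by
    intro z hz
    obtain ⟨x, hx, rfl⟩ := Finset.mem_image.1 hz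
    exact ⟨hlow x hx, hhigh x hx⟩
  have hBmem : ∀ z ∈ B, z < M - 1 ∧ M < 2 * z := by
    intro z hz
    obtain ⟨x, hx, rfl⟩ := Finset.mem_image.1 hz
    have h1 := hlow x hx
    have h2 := hhigh x hx
    omega
  have hAB : Disjoint A B := by
    rw [Finset.disjoint_left]
    intro z hz hz'
    have h1 := hAmem z hz
    have h2 := hBmem z hz'
    omega
  let C : Finset ℕ := {1, M - 1}
  have hC : C.card = 2 := Finset.card_pair (by omega)
  have hABC : Disjoint (A ∪ B) C := by
    rw [Finset.disjoint_left]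
    intro z hz hz'
    rcases Finset.mem_union.1 hz with h | h
    · have h1 := hAmem z h
      rcases Finset.mem_insert.1 hz' with h2 | h2
      · omega
      · have := Finset.mem_singleton.1 h2
        omega
    · have h1 := hBmem z h
      rcases Finset.mem_insert.1 hz' with h2 | h2
      · omega
      · have := Finset.mem_singleton.1 h2
        omega
  have hcard : ((A ∪ B) ∪ C).card = 2 * T.card + 2 := by
    rw [Finset.card_union_of_disjoint hABC, Finset.card_union_of_disjoint hAB, hA, hB, hC]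
    ring
  rw [← hcard]
  apply le_rootCount
  intro z hz
  rcases Finset.mem_union.1 hz with hz | hz
  · rcases Finset.mem_union.1 hz with hz | hz
    · have h1 := hAmem z hz
      obtain ⟨x, hx, rfl⟩ := Finset.mem_image.1 hz
      exact ⟨by omega, x, ht x hx⟩
    · have h1 := hBmem z hz
      obtain ⟨x, hx, rfl⟩ := Finset.mem_image.1 hz
      refine ⟨by omega, M + x - 2 * t x, ?_⟩
      have h2 := ht x hx
      have h3 := hhigh x hx
      zify [show t x ≤ M by omega, show 2 * t x ≤ M + x by omega]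
      have h4 : ((t x : ℤ)) ^ 2 = M * x + 1 := by exact_mod_cast h2
      linear_combination h4
  · rcases Finset.mem_insert.1 hz with rfl | hz
    · exact ⟨by omega, 0, by ring⟩
    · have := Finset.mem_singleton.1 hz
      subst this
      refine ⟨by omega, M - 2, ?_⟩
      zify [show 1 ≤ M by omega, show 2 ≤ M by omega]
      ring

/-- lower neighbours of `M` -/
theorem lower_neighbours {M : ℕ} (hM : 2 < M) (T : Finset ℕ)
    (hT : ∀ x ∈ T, 0 < x ∧ x < M ∧ x + 2 ≠ M ∧ IsSquare (M * x + 1)) :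
    T.card + 2 ≤ rootCount M := by
  classical
  have : NeZero M := ⟨by omega⟩
  let t : ℕ → ℕ := fun x => Nat.sqrt (M * x + 1)
  have ht : ∀ x ∈ T, t x ^ 2 = M * x + 1 := by
    intro x hx
    obtain ⟨r, hr⟩ := (hT x hx).2.2.2
    show Nat.sqrt (M * x + 1) ^ 2 = M * x + 1
    rw [hr, Nat.sqrt_eq]; ring
  have hlow : ∀ x ∈ T, 1 < t x := by
    intro x hx
    have h1 := ht x hx
    have h2 := (hT x hx).1
    have h3 : 0 < M * x := Nat.mul_pos (by omega) h2
    by_contra h4
    have h5 : t x ≤ 1 := by omega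
    have : t x ^ 2 ≤ 1 ^ 2 := Nat.pow_le_pow_left h5 2
    omega
  have hhigh : ∀ x ∈ T, t x < M - 1 := by
    intro x hx
    have h1 := ht x hx
    have h2 := (hT x hx).2.1
    have h3 := (hT x hx).2.2.1
    by_contra h4
    rcases (show M - 1 ≤ t x by omega).eq_or_lt with h5 | h5
    · apply h3
      have h6 : (M - 1) ^ 2 = M * x + 1 := by rw [h5]; exact h1
      have h7 : (M - 1) ^ 2 = M * (M - 2) + 1 := by
        zify [show 1 ≤ M by omega, show 2 ≤ M by omega]
        ring
      have h8 : M * (M - 2) = M * x := by omega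
      have h9 := Nat.eq_of_mul_eq_mul_left (by omega : 0 < M) h8
      omega
    · have h6 : M ≤ t x := by omega
      have h7 : M ^ 2 ≤ t x ^ 2 := Nat.pow_le_pow_left h6 2
      have h8 : M * (x + 1) ≤ M * M := Nat.mul_le_mul_left M (by omega)
      have h9 : M * (x + 1) = M * x + M := by ring
      have h10 : M ^ 2 = M * M := sq M
      omega
  have hinj : Set.InjOn t T := by
    intro x hx y hy hxy
    have h1 := ht x hx
    have h2 := ht y hy
    rw [hxy, h2] at h1
    have h3 : M * y = M * x := by omega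
    exact (Nat.eq_of_mul_eq_mul_left (by omega) h3).symm
  let A := T.image t
  have hA : A.card = T.card := Finset.card_image_of_injOn hinj
  let C : Finset ℕ := {1, M - 1}
  have hC : C.card = 2 := Finset.card_pair (by omega)
  have hAC : Disjoint A C := by
    rw [Finset.disjoint_left]
    intro z hz hz'
    obtain ⟨x, hx, rfl⟩ := Finset.mem_image.1 hz
    have h1 := hlow x hx
    have h2 := hhigh x hx
    rcases Finset.mem_insert.1 hz' with h3 | h3
    · omega
    · have := Finset.mem_singleton.1 h3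
      omega
  have hcard : (A ∪ C).card = T.card + 2 := by
    rw [Finset.card_union_of_disjoint hAC, hA, hC]
  rw [← hcard]
  apply le_rootCount
  intro z hz
  rcases Finset.mem_union.1 hz with hz | hz
  · obtain ⟨x, hx, rfl⟩ := Finset.mem_image.1 hz
    have h2 := hhigh x hx
    exact ⟨by omega, x, ht x hx⟩
  · rcases Finset.mem_insert.1 hz with rfl | hz
    · exact ⟨by omega, 0, by ring⟩
    · have := Finset.mem_singleton.1 hz
      subst this
      refine ⟨by omega, M - 2, ?_⟩
      zify [show 1 ≤ M by omega, show 2 ≤ M by omega]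
      ring

theorem two_pow_eight {c : ℕ} (h : ∃ n, c = 2 ^ n) (h5 : 5 ≤ c) : 8 ≤ c := by
  obtain ⟨n, rfl⟩ := h
  rcases Nat.lt_or_ge n 3 with hn | hn
  · interval_cases n <;> omega
  · calc 8 = 2 ^ 3 := by norm_num
      _ ≤ 2 ^ n := Nat.pow_le_pow_right (by norm_num) hn

theorem two_pow_sixteen {c : ℕ} (h : ∃ n, c = 2 ^ n) (h9 : 9 ≤ c) : 16 ≤ c := by
  obtain ⟨n, rfl⟩ := h
  rcases Nat.lt_or_ge n 4 with hn | hn
  · interval_cases n <;> omega
  · calc 16 = 2 ^ 4 := by norm_num
      _ ≤ 2 ^ n := Nat.pow_le_pow_right (by norm_num) hn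

/-- The element `e` of `triple_data` is a neighbour of `M`. -/
theorem big_sq {M N a s p q e X : ℤ} (ha : 0 < a) (hs0 : 0 ≤ s) (hp0 : 0 ≤ p) (hq0 : 0 ≤ q)
    (hX0 : 0 < X) (hs : s ^ 2 = M * N + 1) (hp : p ^ 2 = M * a + 1) (hq : q ^ 2 = N * a + 1)
    (hX : X ^ 2 = a * e + 1) (hlin : M + N - a - e = 2 * s * X) : IsSquare (M * e + 1) := by
  have h1 : (X + a * s) ^ 2 = (p * q) ^ 2 := by
    rw [mul_pow, hp, hq]
    have : (X + a * s) ^ 2 = X ^ 2 + a * (2 * s * X) + a ^ 2 * s ^ 2 := by ring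
    rw [this, hX, ← hlin, hs]; ring
  have h2 : X + a * s = p * q :=
    (sq_eq_sq₀ (by positivity) (mul_nonneg hp0 hq0)).1 h1
  refine ⟨M * q - s * p, ?_⟩
  have h3 : X = p * q - a * s := by linarith
  have h4 : e = M + N - a - 2 * s * (p * q - a * s) := by rw [← h3]; linarith
  have h5 : (M * q - s * p) * (M * q - s * p) =
    M ^ 2 * q ^ 2 + s ^ 2 * p ^ 2 - 2 * M * s * (p * q) := by ring
  have h6 : M * e + 1 = M * (M + N - a) - 2 * M * s * (p * q) + 2 * M * a * s ^ 2 + 1 := by
    rw [h4]; ring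
  rw [h5, h6, hs, hp, hq]; ring

/-- The element `e` of `triple_data` is a neighbour of `N`. -/
theorem small_sq {M N a s p q e X : ℤ} (ha : 0 < a) (hs0 : 0 ≤ s) (hp0 : 0 ≤ p) (hq0 : 0 ≤ q)
    (hX0 : 0 < X) (hs : s ^ 2 = M * N + 1) (hp : p ^ 2 = M * a + 1) (hq : q ^ 2 = N * a + 1)
    (hX : X ^ 2 = a * e + 1) (hlin : M + N - a - e = 2 * s * X) : IsSquare (N * e + 1) := by
  have h1 : (X + a * s) ^ 2 = (p * q) ^ 2 := by
    rw [mul_pow, hp, hq]
    have : (X + a * s) ^ 2 = X ^ 2 + a * (2 * s * X) + a ^ 2 * s ^ 2 := by ring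
    rw [this, hX, ← hlin, hs]; ring
  have h2 : X + a * s = p * q :=
    (sq_eq_sq₀ (by positivity) (mul_nonneg hp0 hq0)).1 h1
  refine ⟨N * p - s * q, ?_⟩
  have h3 : X = p * q - a * s := by linarith
  have h4 : e = M + N - a - 2 * s * (p * q - a * s) := by rw [← h3]; linarith
  have h5 : (N * p - s * q) * (N * p - s * q) =
    N ^ 2 * p ^ 2 + s ^ 2 * q ^ 2 - 2 * N * s * (p * q) := by ring
  have h6 : N * e + 1 = N * (M + N - a) - 2 * N * s * (p * q) + 2 * N * a * s ^ 2 + 1 := by
    rw [h4]; ring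
  rw [h5, h6, hs, hp, hq]; ring

theorem sq_add_one_ne {n : ℤ} (hn : 0 < n) : ¬ IsSquare (n * n + 1) := by
  rintro ⟨r, hr⟩
  have h1 : |r| * |r| = n * n + 1 := by rw [abs_mul_abs_self, hr]
  have h0 := abs_nonneg r
  have h2 : n < |r| := by nlinarith
  nlinarith

/-- `M - 2` and `M` have no common neighbour below `M`. -/
theorem no_common {M x y : ℕ} (hy : 0 < y) (hyM : y < M) (h1 : IsSquare (M * y + 1))
    (h2 : IsSquare (x * y + 1)) : x + 2 ≠ M := by
  intro hM
  obtain ⟨s, hs⟩ := h1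
  obtain ⟨r, hr⟩ := h2
  subst hM
  have h3 : s * s = r * r + 2 * y := by
    rw [← hs, ← hr]; ring
  have h4 : y < s := by nlinarith
  have h5 : r < s := by nlinarith
  rcases (show r + 1 ≤ s by omega).eq_or_lt with h6 | h6
  · subst h6
    have h7 : (r + 1) * (r + 1) = r * r + (2 * r + 1) := by ring
    omega
  · have h7 : r + 2 ≤ s := h6
    nlinarith

end Pool.Agent.H99.Pyr
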